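import Pool.Agent.Lib.helper1.Ab3

set_option autoImplicit false

namespace Pool.Agent.Results.MP_e714e3_pr.Convex

open Finset Filter Topology

/-- total abandonment rate with `i` jobs present: `i θ` under DES (`des = true`),
`(i - m)⁺ θ` under DBS (`des = false`; the subtraction is that of `ℕ`) -/
noncomputable def ab (des : Bool) (m : ℕ) (θ : ℝ) (i : ℕ) : ℝ :=
  if des then i * θ else (i - m : ℕ) * θ

/-- unnormalised stationary weight `∏_{j=1}^{i} x / d_j` at arrival rate `x` -/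
noncomputable def wt (des : Bool) (m : ℕ) (μ θ x : ℝ) (i : ℕ) : ℝ :=
  ∏ j ∈ range i, x / ((min (j + 1) m : ℕ) * μ + ab des m θ (j + 1))

/-- the mean abandonment rate `∑ π_i L(i)` at arrival rate `x` -/
noncomputable def ell (des : Bool) (m : ℕ) (μ θ x : ℝ) : ℝ :=
  ∑' i, wt des m μ θ x i / (∑' k, wt des m μ θ x k) * ab des m θ i

theorem result (des : Bool) (m : ℕ) (μ θ : ℝ) (hm : 1 ≤ m) (hμ : 0 < μ) (hθ : 0 < θ) :
    StrictMonoOn (ell des m μ θ) (Set.Ioi 0) ∧ StrictConvexOn ℝ (Set.Ioi 0) (ell des m μ θ) ∧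
      DifferentiableOn ℝ (ell des m μ θ) (Set.Ioi 0) ∧
      ContDiffOn ℝ ((⊤ : ℕ∞) : WithTop ℕ∞) (deriv (ell des m μ θ)) (Set.Ioi 0) ∧
      StrictMonoOn (deriv (ell des m μ θ)) (Set.Ioi 0) ∧
      Tendsto (deriv (ell des m μ θ)) atTop (𝓝 1) :=
  Pool.Agent.Lib.helper1.Ab.final des hm hμ hθ

end Pool.Agent.Results.MP_e714e3_pr.Convex
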